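import Pool.Agent.H50.Pol3

namespace Pool.Agent.Results.MP_41af23_an.Counter

open Pool.Agent.H50.Pol

/-- The points are pairwise distinct and no three of them are collinear. -/
def General {n : ℕ} (z : Fin n → ℝ × ℝ) : Prop :=
  Function.Injective z ∧ ∀ i j k, i ≠ j → j ≠ k → i ≠ k → det (z i) (z j) (z k) ≠ 0

/-- The bijection `z i ↦ z' i` preserves the chirotope. -/
def SameChirotope {n : ℕ} (z z' : Fin n → ℝ × ℝ) : Prop :=
  ∀ i j k, SignType.sign (det (z i) (z j) (z k)) = SignType.sign (det (z' i) (z' j) (z' k))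

/-- The face posets of `K` and `K'` are isomorphic. -/
def IsoFaces {V : Type} [AddCommGroup V] [Module ℝ V] (K K' : Set V) : Prop :=
  Nonempty (Face K ≃o Face K')

theorem result : ∃ z z' : Fin 6 → ℝ × ℝ, General z ∧ General z' ∧ SameChirotope z z' ∧
    ¬ IsoFaces (Kpos z) (Kpos z') := by
  refine ⟨fun i => cz (Z1 i), fun i => cz (Z2 i), ⟨cfg1.inj, fun i j k a b c => ?_⟩,
    ⟨cfg2.inj, fun i j k a b c => ?_⟩, fun i j k => ?_, fun ⟨e⟩ => no_iso.false e⟩
  · rw [det_cz]; exact_mod_cast gen1 i j k a b c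
  · rw [det_cz]; exact_mod_cast gen2 i j k a b c
  · simp only [det_cz, sign_intCast, chi i j k]

end Pool.Agent.Results.MP_41af23_an.Counter
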